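import Mathlib
import Pool.Agent.Lib.helper23.LipDef2
import Pool.Agent.H.MP_13bb8c_an.C

set_option autoImplicit false

namespace Pool.Agent.Results.MP_13bb8c_an.No

open Set Pool.Agent.Lib.helper23.LF

/-- `δ(x)` in the free space -/
noncomputable def dl {M : Type} [MetricSpace M] (o x : M) : FreeSp o :=
  (⟨delta o x, Submodule.le_topologicalClosure _ (Submodule.subset_span ⟨x, rfl⟩)⟩ : Free o)

/-- the molecule `m_{xy}` -/
noncomputable def mol {M : Type} [MetricSpace M] (o x y : M) : FreeSp o :=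
  (dist x y)⁻¹ • (dl o x - dl o y)

/-- `F(A)` inside `F(M)` -/
noncomputable def FreeOn {M : Type} [MetricSpace M] (o : M) (A : Set M) : Submodule ℝ (FreeSp o) :=
  (Submodule.span ℝ (dl o '' A)).topologicalClosure

/-- any two points are joined by a unique arc, which is isometric to `[0, d(x,y)]` -/
def IsRTree (T : Type) [MetricSpace T] : Prop :=
  ∀ x y : T, x ≠ y → ∃ σ : Icc (0 : ℝ) (dist x y) → T, Isometry σ ∧
    σ ⟨0, le_rfl, dist_nonneg⟩ = x ∧ σ ⟨dist x y, dist_nonneg, le_rfl⟩ = y ∧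
    ∀ γ : Path x y, Function.Injective γ → range γ = range σ

/-- condition (a) -/
def CondA {T : Type} [MetricSpace T] (o : T) (W : Set (FreeSp o)) : Prop :=
  ∀ ε : ℝ, 0 < ε → ∃ δ : ℝ, 0 < δ ∧ ∀ (n : ℕ) (a : Fin n → ℝ) (x y : Fin n → T), (∀ i, x i ≠ y i) →
    ‖∑ i, a i • mol o (x i) (y i)‖ = ∑ i, |a i| → ∀ I : Finset (Fin n),
      ∑ i ∈ I, dist (x i) (y i) < δ →
        ∑ i ∈ I, |a i| ≤ ε + Metric.infDist (∑ i, a i • mol o (x i) (y i)) W

/-- uniform regularity -/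
def UnifReg {T : Type} [MetricSpace T] (o : T) (W : Set (FreeSp o)) : Prop :=
  ∀ U : Set T, IsOpen U → ∀ ε : ℝ, 0 < ε → ∃ K : Set T, IsCompact K ∧ K ⊆ U ∧
    ∀ w ∈ W, ∃ v ∈ FreeOn o (K ∪ Uᶜ), ‖w - v‖ ≤ ε

theorem result : ∃ (T : Type) (_ : MetricSpace T) (o : T), IsRTree T ∧
    ∃ W : Set (FreeSp o), W.Nonempty ∧ Bornology.IsBounded W ∧ CondA o W ∧ UnifReg o W ∧
      ¬ IsCompact (closure (toWeakSpace ℝ (FreeSp o) '' W)) :=
  Pool.Agent.H.MP_13bb8c_an.main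

end Pool.Agent.Results.MP_13bb8c_an.No
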